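import Mathlib
import Pool.Agent.Helper42.Th.Piece

/-!
Diagrams all crossing balls of which except one are filled with positive slopes: if a peripheral
element of the last ball is a generalized torsion element, the fundamental group of no other
filling is left-orderable.
-/

set_option autoImplicit false

namespace Pool.Agent.Helper42.PF

open Pool.Agent.Helper42.Th
open Pool.Agent.Helper31.OrderAct
open Pool.Agent.Helper71.Rot
open Pool.Agent.Helper71.Tree

section fixed

variable {Ω : Type*} [CompleteLinearOrder Ω]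

/-- An automorphism which moves one point up and another one down has a fixed point between
them. -/
lemma exists_fix_le (f : Ω ≃o Ω) {A B : Ω} (hAB : A ≤ B) (hA : A ≤ f A) (hB : f B ≤ B) :
    ∃ w, f w = w ∧ A ≤ w ∧ w ≤ B := by
  set S : Set Ω := {z | z ≤ f z ∧ z ≤ B} with hS
  have hAS : A ∈ S := ⟨hA, hAB⟩
  have h1 : A ≤ sSup S := le_sSup hAS
  have h2 : sSup S ≤ B := sSup_le fun z hz => hz.2
  have h3 : sSup S ≤ f (sSup S) := sSup_le fun z hz => hz.1.trans (f.monotone (le_sSup hz))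
  have h4 : f (sSup S) ≤ sSup S :=
    le_sSup ⟨f.monotone h3, (f.monotone h2).trans hB⟩
  exact ⟨_, le_antisymm h4 h3, h1, h2⟩

lemma exists_fix (f : Ω ≃o Ω) {A B : Ω} (hA : A ≤ f A) (hB : f B ≤ B) :
    ∃ w, f w = w ∧ (A ≤ w ∨ B ≤ w) ∧ (w ≤ A ∨ w ≤ B) := by
  rcases le_total A B with h | h
  · obtain ⟨w, h1, h2, h3⟩ := exists_fix_le f h hA hB
    exact ⟨w, h1, Or.inl h2, Or.inr h3⟩
  · have e1 : B ≤ f⁻¹ B := by
      have := (f⁻¹).monotone hB
      rwa [RelIso.inv_apply_self] at this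
    have e2 : f⁻¹ A ≤ A := by
      have := (f⁻¹).monotone hA
      rwa [RelIso.inv_apply_self] at this
    obtain ⟨w, h1, h2, h3⟩ := exists_fix_le f⁻¹ h e1 e2
    refine ⟨w, ?_, Or.inr h2, Or.inl h3⟩
    have h4 := inv_fix h1
    rwa [inv_inv] at h4

/-- Common fixed points of two words in two commuting automorphisms. -/
lemma fix_of_words {x y : Ω ≃o Ω} (hc : Commute x y) {p q i j : ℤ} (hdet : p * j ≠ q * i)
    {w : Ω} (h1 : (x ^ p * y ^ q) w = w) (h2 : (x ^ i * y ^ j) w = w) : x w = w ∧ y w = w := by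
  have e1 : (x ^ p * y ^ q) ^ j * (x ^ i * y ^ j) ^ (-q) = x ^ (p * j - q * i) := by
    rw [(hc.zpow_zpow p q).mul_zpow, (hc.zpow_zpow i j).mul_zpow, ← zpow_mul, ← zpow_mul,
      ← zpow_mul, ← zpow_mul]
    rw [(hc.zpow_zpow (i * -q) (j * -q)).eq, mul_assoc, ← mul_assoc (y ^ (q * j)), ← zpow_add,
      show q * j + j * -q = 0 by ring, zpow_zero, one_mul, ← zpow_add]
    congr 1
    ring
  have e2 : (x ^ p * y ^ q) ^ (-i) * (x ^ i * y ^ j) ^ p = y ^ (p * j - q * i) := by
    rw [(hc.zpow_zpow p q).mul_zpow, (hc.zpow_zpow i j).mul_zpow, ← zpow_mul, ← zpow_mul,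
      ← zpow_mul, ← zpow_mul]
    rw [(hc.zpow_zpow (p * -i) (q * -i)).eq, mul_assoc, ← mul_assoc (x ^ (p * -i)), ← zpow_add,
      show p * -i + i * p = 0 by ring, zpow_zero, one_mul, ← zpow_add]
    congr 1
    ring
  have hne : p * j - q * i ≠ 0 := sub_ne_zero.mpr hdet
  have k1 : (x ^ (p * j - q * i)) w = w := by
    rw [← e1, RelIso.mul_apply, zpow_fix _ h2, zpow_fix _ h1]
  have k2 : (y ^ (p * j - q * i)) w = w := by
    rw [← e2, RelIso.mul_apply, zpow_fix _ h2, zpow_fix _ h1]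
  have root : ∀ (f : Ω ≃o Ω) (n : ℤ), n ≠ 0 → (f ^ n) w = w → f w = w := by
    have nat : ∀ (f : Ω ≃o Ω) (n : ℕ), 0 < n → (f ^ n) w = w → f w = w := by
      intro f n hn h
      obtain ⟨m, rfl⟩ : ∃ m, n = m + 1 := ⟨n - 1, by omega⟩
      rw [pow_succ', RelIso.mul_apply] at h
      rcases lt_trichotomy (f w) w with h3 | h3 | h3
      · exact absurd h (((f.monotone (pow_le h3.le m)).trans_lt h3).ne)
      · exact h3
      · exact absurd h ((h3.trans_le (f.monotone (pow_ge h3.le m))).ne')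
    intro f n hn h
    rcases Int.lt_or_gt_of_ne hn with h0 | h0
    · refine nat f n.natAbs (by omega) ?_
      have h4 := inv_fix h
      rw [← zpow_neg] at h4
      rw [← zpow_natCast, show ((n.natAbs : ℕ) : ℤ) = -n by omega]
      exact h4
    · refine nat f n.natAbs (by omega) ?_
      rw [← zpow_natCast, show ((n.natAbs : ℕ) : ℤ) = n by omega]
      exact h
  exact ⟨root x _ hne k1, root y _ hne k2⟩

end fixed

section order

variable {G : Type*} [Group G]

/-- If all conjugates of `x` move the element `t` up, so does their product. -/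
lemma prod_gt [LinearOrder G] (hmul : ∀ f g h : G, g ≤ h → f * g ≤ f * h) {x : G}
    (hx : ∀ t, t < x * t) (l : List G) (hl : l ≠ []) (t : G) :
    t < (l.map fun g => g * x * g⁻¹).prod * t := by
  have hmul' : ∀ f g h : G, g < h → f * g < f * h := by
    intro f g h hgh
    refine lt_of_le_of_ne (hmul f g h hgh.le) fun e => hgh.ne ?_
    exact mul_left_cancel e
  have one : ∀ g t : G, t < g * x * g⁻¹ * t := by
    intro g t
    have h1 := hmul' g _ _ (hx (g⁻¹ * t))
    rwa [mul_inv_cancel_left, ← mul_assoc, ← mul_assoc] at h1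
  induction l generalizing t with
  | nil => exact absurd rfl hl
  | cons g l ih =>
    rw [List.map_cons, List.prod_cons, mul_assoc]
    rcases eq_or_ne l [] with rfl | h
    · simpa using one g t
    · exact (ih h t).trans (one g _)

/-- A generalized torsion element does not move all elements up. -/
lemma exists_le [ho : LinearOrder G] (hmul : ∀ f g h : G, g ≤ h → f * g ≤ f * h) {x : G}
    (hx : ∃ l : List G, l ≠ [] ∧ (l.map fun g => g * x * g⁻¹).prod = 1) : ∃ t, x * t ≤ t := by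
  obtain ⟨l, hl, h1⟩ := hx
  by_contra hn
  push Not at hn
  have h2 := prod_gt hmul hn l hl 1
  rw [h1, mul_one] at h2
  exact lt_irrefl _ h2

end order

/-- The main theorem. -/
theorem main {E : Type} [Finite E] {G : Type*} [Group G] (Γ : CMap E) (L : Lab G Γ) (δ : E)
    (P : Set E) (F : E → Set G) (F₀ : Set G) (p q i j : ℤ) (hdet : p * j ≠ q * i)
    (hP : ∀ d, d ≠ δ → d ≠ Γ.flip δ → d ∈ P ∨ Γ.flip d ∈ P)
    (hpos : ∀ d ∈ P, Fill true 0 (L.M d) (L.D d) (F d))
    (hfill : Fill true 0 (L.D δ ^ p * L.M δ ^ q) (L.D δ ^ i * L.M δ ^ j) F₀)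
    (htors : ∃ l : List G, l ≠ [] ∧
      (l.map fun g => g * (L.D δ ^ p * L.M δ ^ q) * g⁻¹).prod = 1)
    (hgen : Subgroup.closure ((L.elts ∪ ⋃ d ∈ P, F d) ∪ F₀) = ⊤) :
    ¬ (Nontrivial G ∧ ∃ _ : LinearOrder G, ∀ f g h : G, g ≤ h → f * g ≤ f * h) := by
  rintro ⟨hnt, ⟨ho, hmul⟩⟩
  have hDM : Commute (L.D δ) (L.M δ) := (comm_MD L δ).symm
  set ρ := cutHom hmul with hρ
  set x := L.D δ ^ p * L.M δ ^ q with hx
  set c := L.D δ ^ i * L.M δ ^ j with hc
  obtain ⟨t₁, ht₁⟩ := exists_le hmul htors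
  obtain ⟨t₂, ht₂⟩ : ∃ t, t ≤ x * t :=
    @exists_le G _ (OrderDual.instLinearOrder G) (fun f g h hgh => hmul f h g hgh) x htors
  have hIic : ∀ u v : G, ρ u (LowerSet.Iic v) = LowerSet.Iic (u * v) := by
    intro u v
    ext w
    change w ∈ cutHom hmul u (LowerSet.Iic v) ↔ w ∈ LowerSet.Iic (u * v)
    rw [mem_cutHom]
    change u⁻¹ * w ≤ v ↔ w ≤ u * v
    constructor
    · intro h
      have := hmul u _ _ h
      rwa [mul_inv_cancel_left] at this
    · intro h
      have := hmul u⁻¹ _ _ h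
      rwa [inv_mul_cancel_left] at this
  obtain ⟨z, hz, hz1, hz2⟩ := exists_fix (ρ x) (A := LowerSet.Iic t₂) (B := LowerSet.Iic t₁)
    (by
      rw [hIic]
      exact fun w (hw : w ≤ t₂) => (hw.trans ht₂ : w ≤ x * t₂))
    (by
      rw [hIic]
      exact fun w (hw : w ≤ x * t₁) => (hw.trans ht₁ : w ≤ t₁))
  -- the peripheral elements fix `z`
  have hcz : ρ c z = z := by
    have h1 := (spec_of_fill ρ hfill).str (by
      rw [map_mul, map_mul, map_zpow, map_zpow, map_zpow, map_zpow]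
      exact (word_comm (p := ρ (L.D δ)) (q := ρ (L.M δ)) (hDM.map ρ).eq p q i j).eq) rfl 0 rfl z
    rw [neg_zero, zpow_zero, one_mul] at h1
    exact h1 hz
  obtain ⟨hD, hM⟩ : ρ (L.D δ) z = z ∧ ρ (L.M δ) z = z := by
    refine fix_of_words (x := ρ (L.D δ)) (y := ρ (L.M δ)) ?_ hdet ?_ ?_
    · exact hDM.map ρ
    · rw [← map_zpow, ← map_zpow, ← map_mul]
      exact hz
    · rw [← map_zpow, ← map_zpow, ← map_mul]
      exact hcz
  -- all labels fix `z`
  have H := harm_of_fill L ρ hP (fun d hd => spec_of_fill ρ (hpos d hd)) z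
  have h3 : lx L ρ (Γ.flip δ) z = lx L ρ δ z := by
    have h := X_D L ρ δ z
    rwa [hD] at h
  have h4 : ly L ρ (Γ.flip δ) z = ly L ρ δ z := by
    have h := Y_M L ρ δ z
    rwa [hM] at h
  have hX : ∀ d, lx L ρ d z = lx L ρ δ z := by
    intro d
    obtain ⟨h1, h2, -, -⟩ := H.ext h3.le h4.ge d
    exact le_antisymm h2 (h3 ▸ h1)
  have hY : ∀ d, ly L ρ d z = ly L ρ δ z := by
    intro d
    obtain ⟨-, -, h1, h2⟩ := H.ext h3.le h4.ge d
    exact le_antisymm (h4 ▸ h2) h1
  have hX1 : ∀ d, ρ (L.x d) z = z := by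
    obtain ⟨c, hc⟩ := L.x_one
    intro d
    have h1 : lx L ρ d z = lx L ρ c z := (hX d).trans (hX c).symm
    change ρ (L.x d) z = ρ (L.x c) z at h1
    rw [h1, hc, map_one]
    rfl
  have hY1 : ∀ d, ρ (L.y d) z = z := by
    obtain ⟨c, hc⟩ := L.y_one
    intro d
    have h1 : ly L ρ d z = ly L ρ c z := (hY d).trans (hY c).symm
    change ρ (L.y d) z = ρ (L.y c) z at h1
    rw [h1, hc, map_one]
    rfl
  have hDd : ∀ d, ρ (L.D d) z = z := by
    intro d
    rw [Lab.D, map_mul, map_inv, RelIso.mul_apply, hX1]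
    exact inv_fix (hX1 _)
  have hMd : ∀ d, ρ (L.M d) z = z := by
    intro d
    rw [Lab.M, map_mul, map_inv, RelIso.mul_apply, hY1]
    exact inv_fix (hY1 _)
  have hall : ∀ g : G, ρ g z = z := by
    intro g
    have hg : g ∈ Subgroup.closure ((L.elts ∪ ⋃ d ∈ P, F d) ∪ F₀) := by
      rw [hgen]
      trivial
    induction hg using Subgroup.closure_induction with
    | mem y hy =>
      rcases hy with ((⟨d, rfl⟩ | ⟨d, rfl⟩) | hy) | hy
      · exact hX1 d
      · exact hY1 d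
      · obtain ⟨d, hd⟩ := Set.mem_iUnion.mp hy
        obtain ⟨hd1, hd2⟩ := Set.mem_iUnion.mp hd
        exact (spec_of_fill ρ (hpos d hd1)).fix z (hMd d) (hDd d) _ ⟨y, hd2, rfl⟩
      · exact (spec_of_fill ρ hfill).fix z hz hcz _ ⟨y, hy, rfl⟩
    | one => rw [map_one]; rfl
    | mul a b _ _ ha hb => rw [map_mul, RelIso.mul_apply, hb, ha]
    | inv a _ ha => rw [map_inv]; exact inv_fix ha
  -- `z` contains an element, and it is bounded
  obtain ⟨t, ht⟩ : ∃ t : G, t ∈ z := by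
    rcases hz1 with h | h
    · exact ⟨t₂, h (le_refl t₂)⟩
    · exact ⟨t₁, h (le_refl t₁)⟩
  have htop : ∀ g : G, g ∈ z := by
    intro g
    rw [← hall (g * t⁻¹)]
    change g ∈ cutHom hmul (g * t⁻¹) z
    rw [mem_cutHom]
    simpa using ht
  obtain ⟨s, hs⟩ : ∃ s : G, ∀ g, g ≤ s := by
    rcases hz2 with h | h
    · exact ⟨t₂, fun g => h (htop g)⟩
    · exact ⟨t₁, fun g => h (htop g)⟩
  have key : ∀ u v : G, u ≤ v := by
    intro u v
    have h1 := hmul (s * v⁻¹)⁻¹ _ _ ((hs (s * v⁻¹ * u)).trans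
      (le_of_eq (by rw [inv_mul_cancel_right]) : s ≤ s * v⁻¹ * v))
    rwa [inv_mul_cancel_left, inv_mul_cancel_left] at h1
  obtain ⟨u, v, huv⟩ := exists_pair_ne G
  exact huv (le_antisymm (key u v) (key v u))

end Pool.Agent.Helper42.PF
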